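import Mathlib

/-!
# Binomial edge ideals of crown graphs: definitions and the monomial maps

`MvPolynomial (V × Bool) k` is the polynomial ring with two variables for each vertex `v`:
`(v, false)` is `x_v` and `(v, true)` is `y_v`.
-/

namespace Pool.Agent.X238.Vno

open MvPolynomial Finsupp

/-- The vertices of the crown graph `C_{n,n}`: two sides with `n` vertices each. -/
abbrev Vtx (n : ℕ) := Bool × Fin n

/-- The crown graph `C_{n,n}`: `(s, i)` and `(t, j)` are adjacent iff `s ≠ t` and `i ≠ j`. -/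
def crown (n : ℕ) : SimpleGraph (Vtx n) where
  Adj u v := u.1 ≠ v.1 ∧ u.2 ≠ v.2
  symm := ⟨fun _ _ h => ⟨fun e => h.1 e.symm, fun e => h.2 e.symm⟩⟩
  loopless := ⟨fun _ h => h.1 rfl⟩

variable (k : Type*) [Field k] {V : Type}

/-- The binomial `x_i y_j - x_j y_i`. -/
noncomputable def minor (i j : V) : MvPolynomial (V × Bool) k :=
  X (i, false) * X (j, true) - X (j, false) * X (i, true)

/-- The binomial edge ideal `J_G`. -/
noncomputable def edgeIdeal (G : SimpleGraph V) : Ideal (MvPolynomial (V × Bool) k) :=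
  Ideal.span {g | ∃ i j, G.Adj i j ∧ g = minor k i j}

/-- The ideal `P_T(G)`: the variables of the vertices in `T`, and the binomials of all pairs of
vertices in the same connected component of the induced subgraph on the complement of `T`. -/
noncomputable def primeIdeal (G : SimpleGraph V) (T : Set V) :
    Ideal (MvPolynomial (V × Bool) k) :=
  Ideal.span ({g | ∃ i ∈ T, g = X (i, false) ∨ g = X (i, true)} ∪
    {g | ∃ i j : (Tᶜ : Set V), (G.induce Tᶜ).Reachable i j ∧ g = minor k (i : V) (j : V)})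

variable {k}

/-- exponent of the image of a variable -/
noncomputable def E (κ : V → V) (u : V × Bool) : (V ⊕ V) →₀ ℕ :=
  single (Sum.inl u.1) 1 + if u.2 = true then 0 else single (Sum.inr (κ u.1)) 1

open Classical in
/-- image of the variables -/
noncomputable def gmap (k : Type*) [Field k] (S : Set V) (κ : V → V) (u : V × Bool) :
    MvPolynomial (V ⊕ V) k :=
  if u.1 ∈ S then 0 else monomial (E κ u) 1

/-- the monomial map attached to `S` and a labelling `κ` -/
noncomputable def phi (k : Type*) [Field k] (S : Set V) (κ : V → V) :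
    MvPolynomial (V × Bool) k →ₐ[k] MvPolynomial (V ⊕ V) k :=
  aeval (gmap k S κ)

theorem phi_X_mem {S : Set V} {κ : V → V} {u : V × Bool} (h : u.1 ∈ S) :
    phi k S κ (X u) = 0 := by
  simp [phi, gmap, h]

theorem phi_X {S : Set V} {κ : V → V} {u : V × Bool} (h : u.1 ∉ S) :
    phi k S κ (X u) = monomial (E κ u) 1 := by
  simp [phi, gmap, h]

theorem phi_X_ne {S : Set V} {κ : V → V} {u : V × Bool} (h : u.1 ∉ S) :
    phi k S κ (X u) ≠ 0 := by
  rw [phi_X h]
  simp

theorem phi_x {S : Set V} {κ : V → V} {v : V} (h : v ∉ S) :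
    phi k S κ (X (v, false)) = X (Sum.inl v) * X (Sum.inr (κ v)) := by
  rw [phi_X (by exact h), E, X, X, monomial_mul]
  simp

theorem phi_y {S : Set V} {κ : V → V} {v : V} (h : v ∉ S) :
    phi k S κ (X (v, true)) = X (Sum.inl v) := by
  rw [phi_X (by exact h), E, X]
  simp

theorem phi_minor_eq {S : Set V} {κ : V → V} {i j : V} (h : i ∉ S → j ∉ S → κ i = κ j) :
    phi k S κ (minor k i j) = 0 := by
  by_cases hi : i ∈ S
  · rw [minor, map_sub, map_mul, map_mul, phi_X_mem (u := (i, false)) hi,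
      phi_X_mem (u := (i, true)) hi]
    simp
  by_cases hj : j ∈ S
  · rw [minor, map_sub, map_mul, map_mul, phi_X_mem (u := (j, false)) hj,
      phi_X_mem (u := (j, true)) hj]
    simp
  · rw [minor, map_sub, map_mul, map_mul, phi_x hi, phi_y hi, phi_x hj, phi_y hj, h hi hj]
    ring

theorem phi_minor_ne {S : Set V} {κ : V → V} {i j : V} (hi : i ∉ S) (hj : j ∉ S)
    (h : κ i ≠ κ j) : phi k S κ (minor k i j) ≠ 0 := by
  rw [minor, map_sub, map_mul, map_mul, phi_x hi, phi_y hi, phi_x hj, phi_y hj]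
  have e : (X (Sum.inl i) * X (Sum.inr (κ i)) * X (Sum.inl j) -
      X (Sum.inl j) * X (Sum.inr (κ j)) * X (Sum.inl i) : MvPolynomial (V ⊕ V) k) =
      X (Sum.inl i) * X (Sum.inl j) * (X (Sum.inr (κ i)) - X (Sum.inr (κ j))) := by ring
  rw [e]
  refine mul_ne_zero (mul_ne_zero (X_ne_zero _) (X_ne_zero _)) ?_
  rw [sub_ne_zero]
  intro h2
  have := X_injective (R := k) h2
  simp at this
  exact h this

/-- The labelling is constant along the edges outside `S`. -/
def Compat (G : SimpleGraph V) (S : Set V) (κ : V → V) : Prop :=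
  ∀ i j, G.Adj i j → i ∉ S → j ∉ S → κ i = κ j

theorem phi_edgeIdeal {G : SimpleGraph V} {S : Set V} {κ : V → V} (h : Compat G S κ)
    {f : MvPolynomial (V × Bool) k} (hf : f ∈ edgeIdeal k G) : phi k S κ f = 0 := by
  have : edgeIdeal k G ≤ RingHom.ker (phi k S κ) := by
    rw [edgeIdeal, Ideal.span_le]
    rintro g ⟨i, j, hij, rfl⟩
    exact phi_minor_eq (h i j hij)
  exact this hf

/-- exponent of the image of a monomial -/
noncomputable def img [Fintype V] (κ : V → V) (m : (V × Bool) →₀ ℕ) : (V ⊕ V) →₀ ℕ :=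
  ∑ u : V × Bool, m u • E κ u

open Classical in
theorem prod_gmap [Fintype V] (S : Set V) (κ : V → V) (m : (V × Bool) →₀ ℕ) :
    ∏ u : V × Bool, gmap k S κ u ^ m u =
      if ∀ u : V × Bool, u.1 ∈ S → m u = 0 then monomial (img κ m) 1 else 0 := by
  split_ifs with h
  · rw [img, monomial_sum_one]
    refine Finset.prod_congr rfl fun u _ => ?_
    by_cases hu : u.1 ∈ S
    · rw [h u hu]; simp
    · rw [gmap, if_neg hu, monomial_pow]
      simp
  · push Not at h
    obtain ⟨u, hu, hm⟩ := h
    refine Finset.prod_eq_zero (Finset.mem_univ u) ?_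
    rw [gmap, if_pos hu, zero_pow hm]

open Classical in
theorem coeff_phi [Fintype V] (S : Set V) (κ : V → V) (f : MvPolynomial (V × Bool) k)
    (e : (V ⊕ V) →₀ ℕ) :
    coeff e (phi k S κ f) = ∑ m ∈ f.support,
      if (∀ u : V × Bool, u.1 ∈ S → m u = 0) ∧ img κ m = e then coeff m f else 0 := by
  rw [phi, aeval_def, eval₂_eq', coeff_sum]
  refine Finset.sum_congr rfl fun m _ => ?_
  rw [prod_gmap, MvPolynomial.algebraMap_eq, coeff_C_mul]
  by_cases h1 : ∀ u : V × Bool, u.1 ∈ S → m u = 0
  · rw [if_pos h1, coeff_monomial]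
    by_cases h2 : img κ m = e
    · rw [if_pos h2, if_pos ⟨h1, h2⟩, mul_one]
    · rw [if_neg h2, if_neg (fun h => h2 h.2), mul_zero]
  · rw [if_neg h1, if_neg (fun h => h1 h.1)]
    simp

theorem partner [Fintype V] {S : Set V} {κ : V → V} {f : MvPolynomial (V × Bool) k}
    (h0 : phi k S κ f = 0) {m : (V × Bool) →₀ ℕ} (hm : m ∈ f.support)
    (hS : ∀ u : V × Bool, u.1 ∈ S → m u = 0) :
    ∃ m' ∈ f.support, m' ≠ m ∧ img κ m' = img κ m := by
  classical
  by_contra hcon
  push Not at hcon
  have h1 := coeff_phi S κ f (img κ m)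
  rw [h0, coeff_zero, Finset.sum_eq_single m, if_pos ⟨hS, rfl⟩] at h1
  · exact (MvPolynomial.mem_support_iff.mp hm) h1.symm
  · intro m' hm' hne
    rw [if_neg]
    rintro ⟨-, h⟩
    exact hcon m' hm' hne h
  · intro h; exact absurd hm h

theorem img_inl [Fintype V] (κ : V → V) (m : (V × Bool) →₀ ℕ) (v : V) :
    img κ m (Sum.inl v) = m (v, false) + m (v, true) := by
  classical
  rw [img, Finsupp.finsetSum_apply, Fintype.sum_prod_type]
  rw [Finset.sum_eq_single v]
  · simp [E, add_comm]
  · intro w _ hw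
    have : (Sum.inl w : V ⊕ V) ≠ Sum.inl v := fun h => hw (Sum.inl_injective h)
    simp [E, hw]
  · simp

theorem img_inr [Fintype V] [DecidableEq V] (κ : V → V) (m : (V × Bool) →₀ ℕ) (l : V) :
    img κ m (Sum.inr l) = ∑ v, if κ v = l then m (v, false) else 0 := by
  classical
  rw [img, Finsupp.finsetSum_apply, Fintype.sum_prod_type]
  refine Finset.sum_congr rfl fun v _ => ?_
  simp [E, Finsupp.single_apply]

end Pool.Agent.X238.Vno
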