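import Pool.Agent.X238.Vno.Main

namespace Pool.Agent.X238.Vno

open MvPolynomial Finsupp

variable {k : Type*} [Field k] {n : ℕ} {T : Set (Vtx n)} {f : MvPolynomial (Vtx n × Bool) k}

/-- the vertices not on side `s` -/
def sideC (n : ℕ) (s : Bool) : Set (Vtx n) := {v | v.1 ≠ s}

/-- the vertices not on side `s` and not with index `a` -/
def sideM (s : Bool) (a : Fin n) : Set (Vtx n) := {v | v.1 ≠ s ∧ v.2 ≠ a}

/-- all vertices with index different from `a` and `b` -/
def pairC (a b : Fin n) : Set (Vtx n) := {v | v.2 ≠ a ∧ v.2 ≠ b}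

/-- `(s, a)` is isolated -/
def kapM (s : Bool) (a : Fin n) (v : Vtx n) : Vtx n := if v = (s, a) then (s, a) else (!s, a)

/-- two disjoint edges -/
def kapP (s : Bool) (a b : Fin n) (v : Vtx n) : Vtx n :=
  if v = (s, a) ∨ v = (!s, b) then (s, a) else (s, b)

theorem compat_empty (v0 : Vtx n) : Compat (crown n) ∅ (fun _ => v0) := fun _ _ _ _ _ => rfl

theorem compat_sideC (s : Bool) : Compat (crown n) (sideC n s) id := by
  intro i j hij hi hj
  exfalso
  simp only [sideC, Set.mem_ofPred_eq, not_not] at hi hj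
  exact hij.1 (hi.trans hj.symm)

theorem compat_sideM (s : Bool) (a : Fin n) : Compat (crown n) (sideM s a) (kapM s a) := by
  rintro ⟨i1, i2⟩ ⟨j1, j2⟩ hij hi hj
  have h1 : i1 ≠ j1 := hij.1
  have h2 : i2 ≠ j2 := hij.2
  simp only [sideM, Set.mem_ofPred_eq, not_and, not_not] at hi hj
  simp only [kapM, Prod.mk.injEq]
  by_cases hi1 : i1 = s
  · have hj1 : j1 ≠ s := fun e => h1 (hi1.trans e.symm)
    have hj2 := hj hj1
    rw [if_neg, if_neg]
    · exact fun e => hj1 e.1
    · exact fun e => h2 (e.2.trans hj2.symm)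
  · have hi2 := hi hi1
    rw [if_neg, if_neg]
    · exact fun e => h2 (hi2.trans e.2.symm)
    · exact fun e => hi1 e.1

theorem compat_pairC (s : Bool) {a b : Fin n} (hab : a ≠ b) :
    Compat (crown n) (pairC a b) (kapP s a b) := by
  rintro ⟨i1, i2⟩ ⟨j1, j2⟩ hij hi hj
  have h1 : i1 ≠ j1 := hij.1
  have h2 : i2 ≠ j2 := hij.2
  simp only [pairC, Set.mem_ofPred_eq, not_and, not_not] at hi hj
  by_cases hia : i2 = a
  · have hjb : j2 = b := hj (fun e => h2 (hia.trans e.symm))
    subst hia hjb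
    simp only [kapP, Prod.mk.injEq]
    cases i1 <;> cases j1 <;> cases s <;> simp_all
  · have hib : i2 = b := hi hia
    have hja : j2 = a := by
      by_contra hcon
      exact h2 (hib.trans (hj hcon).symm)
    subst hib hja
    simp only [kapP, Prod.mk.injEq]
    cases i1 <;> cases j1 <;> cases s <;> simp_all

theorem exists_ne_two (hn : 3 ≤ n) (a b : Fin n) : ∃ c : Fin n, c ≠ a ∧ c ≠ b := by
  by_contra hcon
  push Not at hcon
  have h1 : (Finset.univ : Finset (Fin n)) ⊆ {a, b} := by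
    intro c _
    by_cases h : c = a
    · simp [h]
    · simp [hcon c h]
  have h2 := Finset.card_le_card h1
  rw [Finset.card_univ, Fintype.card_fin] at h2
  have h3 := Finset.card_le_two (a := a) (b := b)
  omega

/-- A path in the induced graph. -/
theorem reach_step {i j : (Tᶜ : Set (Vtx n))} (h : (crown n).Adj i j) :
    ((crown n).induce Tᶜ).Reachable i j := by
  refine SimpleGraph.Adj.reachable ?_
  simpa using h

theorem A1 (hk : Killed (crown n) T f) (hT : T.Nonempty) (v0 : Vtx n) :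
    phi k ∅ (fun _ => v0) f = 0 := by
  obtain ⟨t, ht⟩ := hT
  exact hk.of_var (compat_empty v0) ht (by simp)

theorem A2 (hn : 3 ≤ n) (hk : Killed (crown n) T f) {s : Bool} (hT : T ≠ sideC n s) :
    phi k (sideC n s) id f = 0 := by
  by_cases h1 : ∃ t ∈ T, t ∉ sideC n s
  · obtain ⟨t, ht, ht2⟩ := h1
    exact hk.of_var (compat_sideC s) ht ht2
  · push Not at h1
    have h2 : ∃ c : Fin n, ((!s, c) : Vtx n) ∉ T := by
      by_contra hcon
      push Not at hcon
      apply hT
      refine Set.Subset.antisymm h1 ?_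
      rintro ⟨v1, v2⟩ hv
      have hv1 : v1 ≠ s := hv
      have : v1 = !s := by cases v1 <;> cases s <;> simp_all
      rw [this]
      exact hcon v2
    obtain ⟨c, hc⟩ := h2
    obtain ⟨d, hd, -⟩ := exists_ne_two hn c c
    obtain ⟨e, he, hed⟩ := exists_ne_two hn c d
    have hs : ∀ x : Fin n, ((s, x) : Vtx n) ∉ T := fun x hx => (h1 _ hx) rfl
    refine hk.of_minor (compat_sideC s) (i := ⟨(s, d), hs d⟩) (j := ⟨(s, e), hs e⟩) ?_
      (by simp [sideC]) (by simp [sideC]) ?_
    · refine SimpleGraph.Reachable.trans (v := ⟨(!s, c), hc⟩) (reach_step ?_) (reach_step ?_)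
      · exact ⟨by simp, hd⟩
      · exact ⟨by simp, fun e => he e.symm⟩
    · simp only [id, ne_eq, Prod.mk.injEq, true_and]
      exact fun e => hed e.symm

theorem A3 (hn : 3 ≤ n) (hk : Killed (crown n) T f) {s : Bool} {a : Fin n}
    (hT : T ≠ sideM s a) : phi k (sideM s a) (kapM s a) f = 0 := by
  by_cases h1 : ∃ t ∈ T, t ∉ sideM s a
  · obtain ⟨t, ht, ht2⟩ := h1
    exact hk.of_var (compat_sideM s a) ht ht2
  · push Not at h1
    have h2 : ∃ b : Fin n, b ≠ a ∧ ((!s, b) : Vtx n) ∉ T := by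
      by_contra hcon
      push Not at hcon
      apply hT
      refine Set.Subset.antisymm h1 ?_
      rintro ⟨v1, v2⟩ hv
      have hv1 : v1 ≠ s := hv.1
      have : v1 = !s := by cases v1 <;> cases s <;> simp_all
      rw [this]
      exact hcon v2 hv.2
    obtain ⟨b, hba, hb⟩ := h2
    obtain ⟨c, hca, hcb⟩ := exists_ne_two hn a b
    have hs : ∀ x : Fin n, ((s, x) : Vtx n) ∉ T := fun x hx => (h1 _ hx).1 rfl
    have hs2 : ((!s, a) : Vtx n) ∉ T := fun hx => (h1 _ hx).2 rfl
    refine hk.of_minor (compat_sideM s a) (i := ⟨(s, a), hs a⟩) (j := ⟨(!s, a), hs2⟩) ?_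
      (by simp [sideM]) (by simp [sideM]) ?_
    · refine SimpleGraph.Reachable.trans (v := ⟨(!s, b), hb⟩) (reach_step ?_)
        (SimpleGraph.Reachable.trans (v := ⟨(s, c), hs c⟩) (reach_step ?_) (reach_step ?_))
      · exact ⟨by simp, fun e => hba e.symm⟩
      · exact ⟨by simp, fun e => hcb e.symm⟩
      · exact ⟨by simp, hca⟩
    · simp [kapM]

theorem A4 (hk : Killed (crown n) T f) (s : Bool) {a b : Fin n} (hab : a ≠ b)
    {t : Vtx n} (ht : t ∈ T) (ht2 : t ∉ pairC a b) : phi k (pairC a b) (kapP s a b) f = 0 :=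
  hk.of_var (compat_pairC s hab) ht ht2

end Pool.Agent.X238.Vno
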