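import Pool.Agent.X238.Vno.Step

namespace Pool.Agent.X238.Vno

open MvPolynomial Finsupp

variable {k : Type*} [Field k] {n : ℕ} {T : Set (Vtx n)} {f : MvPolynomial (Vtx n × Bool) k}

theorem Killed.mul {V : Type} {G : SimpleGraph V} {T : Set V} {f : MvPolynomial (V × Bool) k}
    (hf : Killed G T f) (g : MvPolynomial (V × Bool) k) : Killed G T (g * f) := by
  intro S κ hc hh
  rw [map_mul, hf S κ hc hh, mul_zero]

theorem mem_support_X_mul {σ : Type} {u : σ} {f : MvPolynomial σ k} {m : σ →₀ ℕ} :
    single u 1 + m ∈ (X u * f).support ↔ m ∈ f.support := by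
  rw [MvPolynomial.mem_support_iff, MvPolynomial.mem_support_iff, coeff_X_mul]

theorem no_pair_same {p q r : Vtx n} {b β : Bool} {u : Vtx n} (hpq : p ≠ q)
    (h : (single (u, β) 1 + (single (u, β) 1 + single (u, β) 1) : (Vtx n × Bool) →₀ ℕ) =
      single (p, false) 1 + single (q, true) 1 + single (r, b) 1) : False := by
  rw [← add_assoc] at h
  rcases perm3 h with ⟨h1, h2, h3⟩ | ⟨h1, h2, h3⟩ | ⟨h1, h2, h3⟩ | ⟨h1, h2, h3⟩ |
    ⟨h1, h2, h3⟩ | ⟨h1, h2, h3⟩ <;>
  simp only [Prod.mk.injEq] at h1 h2 h3 <;> simp_all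

/-- degree one -/
theorem low_one (hn : 3 ≤ n) (hk : Killed (crown n) T f) (hf : f.IsHomogeneous 1) : f = 0 := by
  classical
  by_contra h0
  obtain ⟨m, hm⟩ : f.support.Nonempty := by
    rw [Finset.nonempty_iff_ne_empty]
    intro h; exact h0 (MvPolynomial.support_eq_empty.mp h)
  have hdeg : ∑ u, m u = 1 := by
    have h1 := hf (MvPolynomial.mem_support_iff.mp hm)
    rw [← Finsupp.degree_eq_sum, Finsupp.degree_eq_weight_one]
    exact h1
  obtain ⟨⟨u, β⟩, rfl⟩ := eq_single_of_degree_one hdeg
  have hh : (X (u, β) * (X (u, β) * f)).IsHomogeneous 3 := by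
    have := (isHomogeneous_X k (u, β)).mul ((isHomogeneous_X k (u, β)).mul hf)
    simpa using this
  have hm3 := mem_support_X_mul (u := (u, β)).mpr (mem_support_X_mul (u := (u, β)).mpr hm)
  obtain ⟨p, q, r, b, hpq, -, h1, -⟩ := step hn ((hk.mul _).mul _) hh _ hm3
  exact no_pair_same hpq h1

/-- degree zero -/
theorem low_zero (hn : 3 ≤ n) (hk : Killed (crown n) T f) (hf : f.IsHomogeneous 0) : f = 0 := by
  have hh : (X ((false, ⟨0, by omega⟩), false) * f : MvPolynomial (Vtx n × Bool) k).IsHomogeneous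
      1 := by
    have := (isHomogeneous_X k (((false, ⟨0, by omega⟩), false) : Vtx n × Bool)).mul hf
    simpa using this
  have := low_one hn (hk.mul _) hh
  exact (mul_eq_zero.mp this).resolve_left (X_ne_zero _)

theorem exists_two {σ : Type} [Fintype σ] [DecidableEq σ] {m : σ →₀ ℕ} (h : ∑ i, m i = 2) :
    ∃ x y, m = single x 1 + single y 1 := by
  have h1 : ∃ i, m i ≠ 0 := by
    by_contra hcon
    push Not at hcon
    simp [hcon] at h
  obtain ⟨x, hx⟩ := h1
  have hle : single x 1 ≤ m := by
    intro u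
    rw [single_apply]
    split_ifs with hu
    · subst hu; omega
    · exact Nat.zero_le _
  obtain ⟨b, hb⟩ := exists_add_of_le hle
  have hb2 : ∑ i, b i = 1 := by
    rw [hb] at h
    simp only [Finsupp.add_apply, Finset.sum_add_distrib, single_apply] at h
    simp at h
    omega
  obtain ⟨y, hy⟩ := eq_single_of_degree_one hb2
  exact ⟨x, y, by rw [hb, hy]⟩

theorem step_deg_two (hn : 3 ≤ n) (hk : Killed (crown n) T f) (hf : f.IsHomogeneous 2)
    (m : (Vtx n × Bool) →₀ ℕ) (hm : m ∈ f.support) :
    ∃ p q, (crown n).Adj p q ∧ m = single (p, false) 1 + single (q, true) 1 ∧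
      (single (p, true) 1 + single (q, false) 1 : (Vtx n × Bool) →₀ ℕ) ∈ f.support := by
  have hdeg : ∑ u, m u = 2 := by
    have h1 := hf (MvPolynomial.mem_support_iff.mp hm)
    rw [← Finsupp.degree_eq_sum, Finsupp.degree_eq_weight_one]
    exact h1
  obtain ⟨⟨u, β⟩, ⟨v, γ⟩, rfl⟩ := exists_two hdeg
  have hh : (X (u, β) * f).IsHomogeneous 3 := by
    have := (isHomogeneous_X k (u, β)).mul hf
    simpa using this
  have hm3 := mem_support_X_mul (u := (u, β)).mpr hm
  obtain ⟨p, q, r, b, hpq, hadj, h1, h2⟩ := step hn (hk.mul _) hh _ hm3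
  have h1' := h1
  rw [← add_assoc] at h1'
  have hcases : (p, false) = (u, β) ∧ (q, true) = (v, γ) ∧ (r, b) = (u, β) ∨
      (p, false) = (v, γ) ∧ (q, true) = (u, β) ∧ (r, b) = (u, β) := by
    rcases perm3 h1' with ⟨e1, e2, e3⟩ | ⟨e1, e2, e3⟩ | ⟨e1, e2, e3⟩ | ⟨e1, e2, e3⟩ |
      ⟨e1, e2, e3⟩ | ⟨e1, e2, e3⟩ <;>
    simp only [Prod.mk.injEq] at e1 e2 e3 ⊢ <;> simp_all
  have hr : (r, b) = (u, β) := by rcases hcases with h | h; exacts [h.2.2, h.2.2]
  refine ⟨p, q, ?_, ?_, ?_⟩
  · rcases hadj with h | ⟨h3, h4⟩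
    · exact h
    · exfalso
      simp only [Prod.mk.injEq] at hcases
      rcases hcases with ⟨a1, a2, a3⟩ | ⟨a1, a2, a3⟩
      · exact h3.1 (by rw [a1.1, a3.1])
      · exact h4.1 (by rw [a2.1, a3.1])
  · rw [hr, add_comm] at h1
    exact add_right_cancel h1
  · rw [hr, add_comm] at h2
    exact mem_support_X_mul.mp h2

theorem swap_expand_two {V : Type} (p q : V) :
    (minor k p q : MvPolynomial (V × Bool) k) =
      monomial (single (p, false) 1 + single (q, true) 1) 1 -
      monomial (single (p, true) 1 + single (q, false) 1) 1 := by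
  have h : ∀ x y : V × Bool, (monomial (single x 1 + single y 1) 1 :
      MvPolynomial (V × Bool) k) = X x * X y := by
    intro x y
    rw [X, X, monomial_mul]
    simp
  rw [h, h, minor]
  ring

theorem low_two (hn : 3 ≤ n) : ∀ (N : ℕ) (f : MvPolynomial (Vtx n × Bool) k),
    f.support.card ≤ N → Killed (crown n) T f → f.IsHomogeneous 2 →
      f ∈ edgeIdeal k (crown n) := by
  classical
  intro N
  induction N with
  | zero =>
    intro f hN _ _
    have : f.support = ∅ := Finset.card_eq_zero.mp (Nat.le_zero.mp hN)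
    rw [MvPolynomial.support_eq_empty] at this
    rw [this]
    exact Ideal.zero_mem _
  | succ N ih =>
    intro f hN hk hf
    by_cases h0 : f = 0
    · rw [h0]; exact Ideal.zero_mem _
    obtain ⟨m, hm⟩ : f.support.Nonempty := by
      rw [Finset.nonempty_iff_ne_empty]
      intro h; exact h0 (MvPolynomial.support_eq_empty.mp h)
    obtain ⟨p, q, hadj, hmeq, hm'⟩ := step_deg_two hn hk hf m hm
    set m' : (Vtx n × Bool) →₀ ℕ :=
      single (p, true) 1 + single (q, false) 1 with hm'def
    have hne : m ≠ m' := by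
      intro e
      rw [hmeq, hm'def] at e
      have e2 := DFunLike.congr_fun e (p, false)
      have hpq : q ≠ p := fun h => hadj.1 (by rw [h])
      simp [hpq] at e2
    have hJ : (C (coeff m f) * (monomial m 1 - monomial m' 1) :
        MvPolynomial (Vtx n × Bool) k) ∈ edgeIdeal k (crown n) := by
      refine Ideal.mul_mem_left _ _ ?_
      rw [hmeq, hm'def, ← swap_expand_two]
      exact minor_mem hadj
    set g : MvPolynomial (Vtx n × Bool) k :=
      f - C (coeff m f) * (monomial m 1 - monomial m' 1) with hg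
    have hsub : f = g + C (coeff m f) * (monomial m 1 - monomial m' 1) := by
      rw [hg]; ring
    have hcoeff : ∀ x, coeff x g = coeff x f -
        coeff m f * ((if m = x then 1 else 0) - (if m' = x then 1 else 0)) := by
      intro x
      rw [hg, coeff_sub, coeff_C_mul, coeff_sub, coeff_monomial, coeff_monomial]
    have hsupp : g.support ⊆ f.support.erase m := by
      intro x hx
      rw [MvPolynomial.mem_support_iff, hcoeff] at hx
      rw [Finset.mem_erase]
      constructor
      · rintro rfl
        rw [if_pos rfl, if_neg (fun e => hne e.symm)] at hx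
        apply hx; ring
      · by_cases hx2 : m' = x
        · rw [← hx2]; exact hm'
        · by_cases hx1 : m = x
          · rw [← hx1]; exact hm
          · rw [if_neg hx1, if_neg hx2] at hx
            rw [MvPolynomial.mem_support_iff]
            intro h; apply hx; rw [h]; ring
    have hcard : g.support.card ≤ N := by
      have h1 := Finset.card_le_card hsupp
      rw [Finset.card_erase_of_mem hm] at h1
      omega
    have hghom : g.IsHomogeneous 2 := by
      intro x hx
      have hx2 : x ∈ f.support :=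
        Finset.mem_of_mem_erase (hsupp (MvPolynomial.mem_support_iff.mpr hx))
      exact hf (MvPolynomial.mem_support_iff.mp hx2)
    rw [hsub]
    exact Ideal.add_mem _ (ih g hcard (hk.sub hJ) hghom) hJ

/-- No homogeneous polynomial of degree at most three. -/
theorem no_degree_le_three (hn : 3 ≤ n) (T : Set (Vtx n)) (d : ℕ) (hd : d ≤ 3)
    (f : MvPolynomial (Vtx n × Bool) k) (hf : f.IsHomogeneous d) :
    ¬ ∀ g, g * f ∈ edgeIdeal k (crown n) ↔ g ∈ primeIdeal k (crown n) T := by
  intro h
  have hk := killed_of_colon h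
  have key : f ∈ edgeIdeal k (crown n) → False := fun h1 =>
    one_notMem_primeIdeal ((h 1).mp (by rwa [one_mul]))
  apply key
  interval_cases d
  · rw [low_zero hn hk hf]; exact Ideal.zero_mem _
  · rw [low_one hn hk hf]; exact Ideal.zero_mem _
  · exact low_two hn _ f le_rfl hk hf
  · exact mem_of_pairs (G := crown n) (T := T) (fun f hk hf m hm => step hn hk hf m hm)
      _ f le_rfl hk hf

end Pool.Agent.X238.Vno
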