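import Pool.Agent.X238.Vno.Swap

namespace Pool.Agent.X238.Vno

open MvPolynomial Finsupp

variable {k : Type*} [Field k]

/-- every compatible monomial map that does not kill `P_T` kills `f` -/
def Killed {V : Type} (G : SimpleGraph V) (T : Set V) (f : MvPolynomial (V × Bool) k) : Prop :=
  ∀ (S : Set V) (κ : V → V), Compat G S κ → (∃ h ∈ primeIdeal k G T, phi k S κ h ≠ 0) →
    phi k S κ f = 0

section reduce

variable {V : Type} {G : SimpleGraph V} {T : Set V}

theorem Killed.sub {f g : MvPolynomial (V × Bool) k} (hf : Killed G T f)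
    (hg : g ∈ edgeIdeal k G) : Killed G T (f - g) := by
  intro S κ hc hh
  rw [map_sub, hf S κ hc hh, phi_edgeIdeal hc hg, sub_zero]

theorem minor_mem {i j : V} (h : G.Adj i j) : minor k i j ∈ edgeIdeal k G :=
  Ideal.subset_span ⟨i, j, h, rfl⟩

theorem swap_mem {p q r : V} {b : Bool} (h : G.Adj p q ∨ (G.Adj p r ∧ G.Adj q r)) :
    X (r, b) * minor k p q ∈ edgeIdeal k G := by
  rcases h with h | ⟨h1, h2⟩
  · exact Ideal.mul_mem_left _ _ (minor_mem h)
  · have e : (X (r, b) * minor k p q : MvPolynomial (V × Bool) k) =
        X (p, b) * minor k r q + X (q, b) * minor k p r := by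
      cases b <;> (simp only [minor]; ring)
    rw [e]
    exact Ideal.add_mem _ (Ideal.mul_mem_left _ _ (minor_mem h2.symm))
      (Ideal.mul_mem_left _ _ (minor_mem h1))

theorem swap_expand (p q r : V) (b : Bool) :
    (X (r, b) * minor k p q : MvPolynomial (V × Bool) k) =
      monomial (single (p, false) 1 + single (q, true) 1 + single (r, b) 1) 1 -
      monomial (single (p, true) 1 + single (q, false) 1 + single (r, b) 1) 1 := by
  have h : ∀ x y z : V × Bool, (monomial (single x 1 + single y 1 + single z 1) 1 :
      MvPolynomial (V × Bool) k) = X x * X y * X z := by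
    intro x y z
    rw [X, X, X, monomial_mul, monomial_mul]
    simp
  rw [h, h, minor]
  ring

/-- If each monomial has a swap partner inside the ideal, the polynomial lies in the ideal. -/
theorem mem_of_pairs
    (hstep : ∀ f : MvPolynomial (V × Bool) k, Killed G T f → f.IsHomogeneous 3 →
      ∀ m ∈ f.support, ∃ p q r b, p ≠ q ∧ (G.Adj p q ∨ (G.Adj p r ∧ G.Adj q r)) ∧
        m = single (p, false) 1 + single (q, true) 1 + single (r, b) 1 ∧
        (single (p, true) 1 + single (q, false) 1 + single (r, b) 1 : (V × Bool) →₀ ℕ)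
          ∈ f.support) :
    ∀ (N : ℕ) (f : MvPolynomial (V × Bool) k), f.support.card ≤ N → Killed G T f →
      f.IsHomogeneous 3 → f ∈ edgeIdeal k G := by
  classical
  intro N
  induction N with
  | zero =>
    intro f hN _ _
    have : f.support = ∅ := Finset.card_eq_zero.mp (Nat.le_zero.mp hN)
    rw [MvPolynomial.support_eq_empty] at this
    rw [this]
    exact Ideal.zero_mem _
  | succ N ih =>
    intro f hN hk hf
    by_cases h0 : f = 0
    · rw [h0]; exact Ideal.zero_mem _
    obtain ⟨m, hm⟩ : f.support.Nonempty := by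
      rw [Finset.nonempty_iff_ne_empty]
      intro h; exact h0 (MvPolynomial.support_eq_empty.mp h)
    obtain ⟨p, q, r, b, hpq, hadj, hmeq, hm'⟩ := hstep f hk hf m hm
    set m' : (V × Bool) →₀ ℕ :=
      single (p, true) 1 + single (q, false) 1 + single (r, b) 1 with hm'def
    have hne : m ≠ m' := by
      intro e
      rw [hmeq, hm'def] at e
      have e2 := DFunLike.congr_fun e (p, false)
      simp only [Finsupp.add_apply, single_apply, Prod.mk.injEq] at e2
      simp [hpq.symm] at e2
    have hJ : (C (coeff m f) * (monomial m 1 - monomial m' 1) : MvPolynomial (V × Bool) k) ∈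
        edgeIdeal k G := by
      refine Ideal.mul_mem_left _ _ ?_
      rw [hmeq, hm'def, ← swap_expand]
      exact swap_mem hadj
    set g : MvPolynomial (V × Bool) k :=
      f - C (coeff m f) * (monomial m 1 - monomial m' 1) with hg
    have hsub : f = g + C (coeff m f) * (monomial m 1 - monomial m' 1) := by
      rw [hg]; ring
    have hcoeff : ∀ x, coeff x g = coeff x f -
        coeff m f * ((if m = x then 1 else 0) - (if m' = x then 1 else 0)) := by
      intro x
      rw [hg, coeff_sub, coeff_C_mul, coeff_sub, coeff_monomial, coeff_monomial]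
    have hsupp : g.support ⊆ f.support.erase m := by
      intro x hx
      rw [MvPolynomial.mem_support_iff, hcoeff] at hx
      rw [Finset.mem_erase]
      constructor
      · rintro rfl
        rw [if_pos rfl, if_neg (fun e => hne e.symm)] at hx
        apply hx; ring
      · by_cases hx2 : m' = x
        · rw [← hx2]; exact hm'
        · by_cases hx1 : m = x
          · rw [← hx1]; exact hm
          · rw [if_neg hx1, if_neg hx2] at hx
            rw [MvPolynomial.mem_support_iff]
            intro h; apply hx; rw [h]; ring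
    have hcard : g.support.card ≤ N := by
      have h1 := Finset.card_le_card hsupp
      rw [Finset.card_erase_of_mem hm] at h1
      omega
    have hghom : g.IsHomogeneous 3 := by
      intro x hx
      have hx2 : x ∈ f.support :=
        Finset.mem_of_mem_erase (hsupp (MvPolynomial.mem_support_iff.mpr hx))
      exact hf (MvPolynomial.mem_support_iff.mp hx2)
    rw [hsub]
    exact Ideal.add_mem _ (ih g hcard (hk.sub hJ) hghom) hJ

/-- `P_T` is a proper ideal. -/
theorem one_notMem_primeIdeal : (1 : MvPolynomial (V × Bool) k) ∉ primeIdeal k G T := by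
  have hle : primeIdeal k G T ≤ RingHom.ker (constantCoeff (σ := V × Bool) (R := k)) := by
    rw [primeIdeal, Ideal.span_le]
    rintro g (⟨i, -, rfl | rfl⟩ | ⟨i, j, -, rfl⟩)
    · simp [RingHom.mem_ker]
    · simp [RingHom.mem_ker]
    · simp [RingHom.mem_ker, minor]
  intro h
  have := hle h
  rw [RingHom.mem_ker] at this
  simp at this

theorem killed_of_colon {f : MvPolynomial (V × Bool) k}
    (h : ∀ g, g * f ∈ edgeIdeal k G ↔ g ∈ primeIdeal k G T) : Killed G T f := by
  rintro S κ hc ⟨g, hg, hne⟩
  have h1 := phi_edgeIdeal hc ((h g).mpr hg)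
  rw [map_mul] at h1
  exact (mul_eq_zero.mp h1).resolve_left hne

theorem var_mem {t : V} (ht : t ∈ T) (b : Bool) :
    (X (t, b) : MvPolynomial (V × Bool) k) ∈ primeIdeal k G T := by
  refine Ideal.subset_span (Or.inl ⟨t, ht, ?_⟩)
  cases b
  · exact Or.inl rfl
  · exact Or.inr rfl

theorem Killed.of_var {f : MvPolynomial (V × Bool) k} (hf : Killed G T f) {S : Set V}
    {κ : V → V} (hc : Compat G S κ) {t : V} (ht : t ∈ T) (hS : t ∉ S) : phi k S κ f = 0 :=
  hf S κ hc ⟨X (t, true), var_mem ht true, phi_X_ne hS⟩

theorem Killed.of_minor {f : MvPolynomial (V × Bool) k} (hf : Killed G T f) {S : Set V}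
    {κ : V → V} (hc : Compat G S κ) {i j : (Tᶜ : Set V)} (hr : (G.induce Tᶜ).Reachable i j)
    (hi : (i : V) ∉ S) (hj : (j : V) ∉ S) (hne : κ i ≠ κ j) : phi k S κ f = 0 :=
  hf S κ hc ⟨minor k i j, Ideal.subset_span (Or.inr ⟨i, j, hr, rfl⟩), phi_minor_ne hi hj hne⟩

end reduce

end Pool.Agent.X238.Vno
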