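import Pool.Agent.X238.Vno.Crown

namespace Pool.Agent.X238.Vno

open MvPolynomial Finsupp

theorem perm2 {σ : Type} {x y u v : σ}
    (h : (single x 1 + single y 1 : σ →₀ ℕ) = single u 1 + single v 1) :
    (x = u ∧ y = v) ∨ (x = v ∧ y = u) := by
  classical
  have h1 := DFunLike.congr_fun h x
  simp only [Finsupp.add_apply, single_apply] at h1
  by_cases hxu : u = x
  · subst hxu
    have h2 := add_left_cancel h
    have h3 := DFunLike.congr_fun h2 y
    simp only [single_apply] at h3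
    by_cases hyv : v = y
    · exact Or.inl ⟨rfl, hyv.symm⟩
    · simp [hyv] at h3
  · by_cases hxv : v = x
    · subst hxv
      rw [add_comm (single u 1)] at h
      have h2 := add_left_cancel h
      have h3 := DFunLike.congr_fun h2 y
      simp only [single_apply] at h3
      by_cases hyu : u = y
      · exact Or.inr ⟨rfl, hyu.symm⟩
      · simp [hyu] at h3
    · simp [hxu, hxv] at h1

theorem perm3 {σ : Type} {x y z u v w : σ}
    (h : (single x 1 + single y 1 + single z 1 : σ →₀ ℕ) =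
      single u 1 + single v 1 + single w 1) :
    (x = u ∧ y = v ∧ z = w) ∨ (x = u ∧ y = w ∧ z = v) ∨ (x = v ∧ y = u ∧ z = w) ∨
    (x = v ∧ y = w ∧ z = u) ∨ (x = w ∧ y = u ∧ z = v) ∨ (x = w ∧ y = v ∧ z = u) := by
  classical
  have h1 := DFunLike.congr_fun h z
  simp only [Finsupp.add_apply, single_apply] at h1
  by_cases hzw : w = z
  · subst hzw
    rcases perm2 (add_right_cancel h) with ⟨a, b⟩ | ⟨a, b⟩
    · exact Or.inl ⟨a, b, rfl⟩
    · exact Or.inr (Or.inr (Or.inl ⟨a, b, rfl⟩))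
  · by_cases hzv : v = z
    · subst hzv
      rw [add_right_comm (single u 1)] at h
      rcases perm2 (add_right_cancel h) with ⟨a, b⟩ | ⟨a, b⟩
      · exact Or.inr (Or.inl ⟨a, b, rfl⟩)
      · exact Or.inr (Or.inr (Or.inr (Or.inr (Or.inl ⟨a, b, rfl⟩))))
    · by_cases hzu : u = z
      · subst hzu
        rw [add_comm (single u 1) (single v 1), add_right_comm (single v 1)] at h
        rcases perm2 (add_right_cancel h) with ⟨a, b⟩ | ⟨a, b⟩
        · exact Or.inr (Or.inr (Or.inr (Or.inl ⟨a, b, rfl⟩)))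
        · exact Or.inr (Or.inr (Or.inr (Or.inr (Or.inr ⟨a, b, rfl⟩))))
      · simp [hzu, hzv, hzw] at h1

/-- a degree-three exponent is a sum of three unit vectors -/
theorem exists_three {σ : Type} [Fintype σ] [DecidableEq σ] {m : σ →₀ ℕ} (h : ∑ i, m i = 3) :
    ∃ x y z, m = single x 1 + single y 1 + single z 1 := by
  have step : ∀ (a : σ →₀ ℕ) (N : ℕ), ∑ i, a i = N + 1 →
      ∃ x b, a = single x 1 + b ∧ ∑ i, b i = N := by
    intro a N ha
    have h1 : ∃ i, a i ≠ 0 := by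
      by_contra hcon
      push Not at hcon
      simp [hcon] at ha
    obtain ⟨x, hx⟩ := h1
    have hle : single x 1 ≤ a := by
      intro u
      rw [single_apply]
      split_ifs with hu
      · subst hu; omega
      · exact Nat.zero_le _
    obtain ⟨b, hb⟩ := exists_add_of_le hle
    refine ⟨x, b, hb, ?_⟩
    rw [hb] at ha
    simp only [Finsupp.add_apply, Finset.sum_add_distrib, single_apply] at ha
    simp at ha
    omega
  obtain ⟨x, b, hb, hb2⟩ := step m 2 h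
  obtain ⟨y, c, hc, hc2⟩ := step b 1 hb2
  obtain ⟨z, hz⟩ := eq_single_of_degree_one hc2
  exact ⟨x, y, z, by rw [hb, hc, hz, add_assoc]⟩

variable {k : Type*} [Field k] {n : ℕ} {T : Set (Vtx n)} {f : MvPolynomial (Vtx n × Bool) k}

theorem kapM_eq {s : Bool} {a : Fin n} {p q : Vtx n} (hpq : p ≠ q)
    (h : kapM s a p = kapM s a q) : p ≠ (s, a) ∧ q ≠ (s, a) := by
  constructor
  · rintro rfl
    apply hpq
    by_contra hcon
    rw [kapM, kapM, if_pos rfl, if_neg (fun e => hcon e.symm)] at h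
    simp at h
  · rintro rfl
    apply hpq
    by_contra hcon
    rw [kapM, kapM, if_pos rfl, if_neg hcon] at h
    simp at h

theorem kapP_eq {s : Bool} {a b : Fin n} (hab : a ≠ b) {p q : Vtx n}
    (hp : p = (s, a) ∨ p = (s, b) ∨ p = (!s, a)) (hq : q = (s, a) ∨ q = (s, b) ∨ q = (!s, a))
    (hpq : p ≠ q) (h : kapP s a b p = kapP s a b q) : p ≠ (s, a) ∧ q ≠ (s, a) := by
  have hba := hab.symm
  rcases hp with rfl | rfl | rfl <;> rcases hq with rfl | rfl | rfl <;>
    simp_all [kapP]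

/-- The conclusion of the step. -/
def Good (f : MvPolynomial (Vtx n × Bool) k) (m : (Vtx n × Bool) →₀ ℕ) : Prop :=
  ∃ p q r b, p ≠ q ∧ ((crown n).Adj p q ∨ ((crown n).Adj p r ∧ (crown n).Adj q r)) ∧
    m = single (p, false) 1 + single (q, true) 1 + single (r, b) 1 ∧
    (single (p, true) 1 + single (q, false) 1 + single (r, b) 1 : (Vtx n × Bool) →₀ ℕ)
      ∈ f.support

theorem zero_of_notMem {x y z u : Vtx n × Bool} {S : Set (Vtx n)} (hx : x.1 ∉ S) (hy : y.1 ∉ S)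
    (hz : z.1 ∉ S) (hu : u.1 ∈ S) :
    (single x 1 + single y 1 + single z 1 : (Vtx n × Bool) →₀ ℕ) u = 0 := by
  have h1 : x ≠ u := by rintro rfl; exact hx hu
  have h2 : y ≠ u := by rintro rfl; exact hy hu
  have h3 : z ≠ u := by rintro rfl; exact hz hu
  simp [h1, h2, h3]

theorem sideC_ne_sideM (s : Bool) (a : Fin n) : sideC n s ≠ sideM s a := by
  intro h
  have h1 : ((!s, a) : Vtx n) ∈ sideC n s := by simp [sideC]
  rw [h] at h1
  exact h1.2 rfl

/-- three vertices on the same side -/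
theorem same_side (hn : 3 ≤ n) (hk : Killed (crown n) T f) (hf : f.IsHomogeneous 3)
    {s : Bool} {a b c : Fin n} {β1 β2 β3 : Bool}
    (hm : (single ((s, a), β1) 1 + single ((s, b), β2) 1 + single ((s, c), β3) 1 :
      (Vtx n × Bool) →₀ ℕ) ∈ f.support) : False := by
  have hs : ∀ x : Fin n, ((s, x) : Vtx n) ∉ sideC n s := fun x h => h rfl
  have hs2 : ∀ e x : Fin n, ((s, x) : Vtx n) ∉ sideM s e := fun e x h => h.1 rfl
  by_cases hT : T = sideC n s
  · have key : ∀ e, ∃ p q r b', p ≠ q ∧ p ≠ (s, e) ∧ q ≠ (s, e) ∧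
        (single ((s, a), β1) 1 + single ((s, b), β2) 1 + single ((s, c), β3) 1 :
          (Vtx n × Bool) →₀ ℕ) =
        single (p, false) 1 + single (q, true) 1 + single (r, b') 1 := by
      intro e
      obtain ⟨p, q, r, b', hpq, hκ, h1, -⟩ := extract
        (A3 hn hk (s := s) (a := e) (by rw [hT]; exact sideC_ne_sideM s e)) hf hm
        (fun u hu => zero_of_notMem (hs2 e a) (hs2 e b) (hs2 e c) hu)
      obtain ⟨h3, h4⟩ := kapM_eq hpq hκ
      exact ⟨p, q, r, b', hpq, h3, h4, h1⟩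
    obtain ⟨p1, q1, r1, b1, hpq1, hp1, hq1, e1⟩ := key a
    obtain ⟨p2, q2, r2, b2, hpq2, hp2, hq2, e2⟩ := key b
    obtain ⟨p3, q3, r3, b3, hpq3, hp3, hq3, e3⟩ := key c
    have g1 : β2 ≠ β3 := by
      rcases perm3 e1 with ⟨h1, h2, h3⟩ | ⟨h1, h2, h3⟩ | ⟨h1, h2, h3⟩ | ⟨h1, h2, h3⟩ |
        ⟨h1, h2, h3⟩ | ⟨h1, h2, h3⟩ <;>
      simp only [Prod.mk.injEq] at h1 h2 h3 <;>
      first
        | exact absurd h1.1.symm hp1
        | exact absurd h1.1.symm hq1
        | (rw [h2.2, h3.2]; simp)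
    have g2 : β1 ≠ β3 := by
      rcases perm3 e2 with ⟨h1, h2, h3⟩ | ⟨h1, h2, h3⟩ | ⟨h1, h2, h3⟩ | ⟨h1, h2, h3⟩ |
        ⟨h1, h2, h3⟩ | ⟨h1, h2, h3⟩ <;>
      simp only [Prod.mk.injEq] at h1 h2 h3 <;>
      first
        | exact absurd h2.1.symm hp2
        | exact absurd h2.1.symm hq2
        | (rw [h1.2, h3.2]; simp)
    have g3 : β1 ≠ β2 := by
      rcases perm3 e3 with ⟨h1, h2, h3⟩ | ⟨h1, h2, h3⟩ | ⟨h1, h2, h3⟩ | ⟨h1, h2, h3⟩ |
        ⟨h1, h2, h3⟩ | ⟨h1, h2, h3⟩ <;>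
      simp only [Prod.mk.injEq] at h1 h2 h3 <;>
      first
        | exact absurd h3.1.symm hp3
        | exact absurd h3.1.symm hq3
        | (rw [h1.2, h2.2]; simp)
    cases β1 <;> cases β2 <;> cases β3 <;> simp_all
  · obtain ⟨p, q, r, b', hpq, hκ, h1, -⟩ := extract (A2 hn hk hT) hf hm
      (fun u hu => zero_of_notMem (hs a) (hs b) (hs c) hu)
    exact hpq hκ

/-- `c` is different from `a` and `b`. -/
theorem mixed_gen (hn : 3 ≤ n) (hk : Killed (crown n) T f) (hf : f.IsHomogeneous 3)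
    {s : Bool} {a b c : Fin n} {β1 β2 β3 : Bool} (hca : c ≠ a) (hcb : c ≠ b)
    (hm : (single ((s, a), β1) 1 + single ((s, b), β2) 1 + single ((!s, c), β3) 1 :
      (Vtx n × Bool) →₀ ℕ) ∈ f.support) :
    Good f (single ((s, a), β1) 1 + single ((s, b), β2) 1 + single ((!s, c), β3) 1) := by
  have h1 : ∃ p q r b', p ≠ q ∧ 
      (single ((s, a), β1) 1 + single ((s, b), β2) 1 + single ((!s, c), β3) 1 :
          (Vtx n × Bool) →₀ ℕ) =
        single (p, false) 1 + single (q, true) 1 + single (r, b') 1 ∧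
      (single (p, true) 1 + single (q, false) 1 + single (r, b') 1 : (Vtx n × Bool) →₀ ℕ)
        ∈ f.support := by
    by_cases hT : T.Nonempty
    · obtain ⟨p, q, r, b', hpq, hκ, h1, h2⟩ := extract (A1 hk hT (s, a)) hf hm
        (fun u hu => absurd hu (by simp))
      exact ⟨p, q, r, b', hpq, h1, h2⟩
    · have hT2 : T ≠ sideM s c := by
        rw [Set.not_nonempty_iff_eq_empty] at hT
        rw [hT]
        intro h
        obtain ⟨d, hd, -⟩ := exists_ne_two hn c c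
        have : ((!s, d) : Vtx n) ∈ sideM s c := ⟨by simp, hd⟩
        rw [← h] at this
        exact this
      obtain ⟨p, q, r, b', hpq, hκ, h1, h2⟩ := extract (A3 hn hk hT2) hf hm
        (fun u hu => zero_of_notMem (fun h => h.1 rfl) (fun h => h.1 rfl) (fun h => h.2 rfl) hu)
      exact ⟨p, q, r, b', hpq, h1, h2⟩
  obtain ⟨p, q, r, b', hpq, h1, h2⟩ := h1
  refine ⟨p, q, r, b', hpq, ?_, h1, h2⟩
  rcases perm3 h1 with ⟨e1, e2, e3⟩ | ⟨e1, e2, e3⟩ | ⟨e1, e2, e3⟩ | ⟨e1, e2, e3⟩ |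
    ⟨e1, e2, e3⟩ | ⟨e1, e2, e3⟩ <;>
  simp only [Prod.mk.injEq] at e1 e2 e3 <;>
  rw [← e1.1, ← e2.1, ← e3.1] <;>
  simp [crown, hca, hcb, Ne.symm hca, Ne.symm hcb]

/-- `c = a ≠ b`. -/
theorem mixed_a (hn : 3 ≤ n) (hk : Killed (crown n) T f) (hf : f.IsHomogeneous 3)
    {s : Bool} {a b : Fin n} {β1 β2 β3 : Bool} (hab : a ≠ b)
    (hm : (single ((s, a), β1) 1 + single ((s, b), β2) 1 + single ((!s, a), β3) 1 :
      (Vtx n × Bool) →₀ ℕ) ∈ f.support) :
    Good f (single ((s, a), β1) 1 + single ((s, b), β2) 1 + single ((!s, a), β3) 1) := by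
  have h1 : ∃ p q r b', p ≠ q ∧ p ≠ (s, a) ∧ q ≠ (s, a) ∧
      (single ((s, a), β1) 1 + single ((s, b), β2) 1 + single ((!s, a), β3) 1 :
          (Vtx n × Bool) →₀ ℕ) =
        single (p, false) 1 + single (q, true) 1 + single (r, b') 1 ∧
      (single (p, true) 1 + single (q, false) 1 + single (r, b') 1 : (Vtx n × Bool) →₀ ℕ)
        ∈ f.support := by
    by_cases hT : T = sideM s a
    · have ht : ((!s, b) : Vtx n) ∈ T := by
        rw [hT]; exact ⟨by simp, fun e => hab e.symm⟩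
      obtain ⟨p, q, r, b', hpq, hκ, h1, h2⟩ := extract
        (A4 hk s hab ht (fun h => h.2 rfl)) hf hm
        (fun u hu => zero_of_notMem (fun h => h.1 rfl) (fun h => h.2 rfl) (fun h => h.1 rfl) hu)
      have hpm : (p = (s, a) ∨ p = (s, b) ∨ p = (!s, a)) ∧
          (q = (s, a) ∨ q = (s, b) ∨ q = (!s, a)) := by
        rcases perm3 h1 with ⟨e1, e2, e3⟩ | ⟨e1, e2, e3⟩ | ⟨e1, e2, e3⟩ | ⟨e1, e2, e3⟩ |
          ⟨e1, e2, e3⟩ | ⟨e1, e2, e3⟩ <;>
        simp only [Prod.mk.injEq] at e1 e2 e3 <;>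
        simp [← e1.1, ← e2.1, ← e3.1]
      obtain ⟨h3, h4⟩ := kapP_eq hab hpm.1 hpm.2 hpq hκ
      exact ⟨p, q, r, b', hpq, h3, h4, h1, h2⟩
    · obtain ⟨p, q, r, b', hpq, hκ, h1, h2⟩ := extract (A3 hn hk hT) hf hm
        (fun u hu => zero_of_notMem (fun h => h.1 rfl) (fun h => h.1 rfl) (fun h => h.2 rfl) hu)
      obtain ⟨h3, h4⟩ := kapM_eq hpq hκ
      exact ⟨p, q, r, b', hpq, h3, h4, h1, h2⟩
  obtain ⟨p, q, r, b', hpq, hp, hq, h1, h2⟩ := h1
  refine ⟨p, q, r, b', hpq, ?_, h1, h2⟩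
  rcases perm3 h1 with ⟨e1, e2, e3⟩ | ⟨e1, e2, e3⟩ | ⟨e1, e2, e3⟩ | ⟨e1, e2, e3⟩ |
    ⟨e1, e2, e3⟩ | ⟨e1, e2, e3⟩ <;>
  simp only [Prod.mk.injEq] at e1 e2 e3 <;>
  first
    | exact absurd e1.1.symm hp
    | exact absurd e1.1.symm hq
    | (rw [← e2.1, ← e3.1]; simp [crown, hab, Ne.symm hab])

/-- `a = b = c`. -/
theorem mixed_eq (hn : 3 ≤ n) (hk : Killed (crown n) T f) (hf : f.IsHomogeneous 3)
    {s : Bool} {a : Fin n} {β1 β2 β3 : Bool}
    (hm : (single ((s, a), β1) 1 + single ((s, a), β2) 1 + single ((!s, a), β3) 1 :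
      (Vtx n × Bool) →₀ ℕ) ∈ f.support) : False := by
  have key : ∀ t : Bool, T ≠ sideM t a → (t = s ∨ t = !s) → False := by
    intro t hT ht
    obtain ⟨p, q, r, b', hpq, hκ, h1, h2⟩ := extract (A3 hn hk hT) hf hm
      (fun u hu => zero_of_notMem (fun h => h.2 rfl) (fun h => h.2 rfl) (fun h => h.2 rfl) hu)
    obtain ⟨h3, h4⟩ := kapM_eq hpq hκ
    rcases perm3 h1 with ⟨e1, e2, e3⟩ | ⟨e1, e2, e3⟩ | ⟨e1, e2, e3⟩ | ⟨e1, e2, e3⟩ |
      ⟨e1, e2, e3⟩ | ⟨e1, e2, e3⟩ <;>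
    simp only [Prod.mk.injEq] at e1 e2 e3 <;>
    rcases ht with rfl | rfl <;> simp_all
  by_cases hT : T = sideM s a
  · refine key (!s) ?_ (Or.inr rfl)
    rw [hT]
    intro h
    obtain ⟨d, hd, -⟩ := exists_ne_two hn a a
    have h1 : ((!s, d) : Vtx n) ∈ sideM s a := ⟨by simp, hd⟩
    rw [h] at h1
    exact h1.1 rfl
  · exact key s hT (Or.inl rfl)

/-- two vertices on the same side -/
theorem step_two (hn : 3 ≤ n) (hk : Killed (crown n) T f) (hf : f.IsHomogeneous 3)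
    {s s3 : Bool} {a b c : Fin n} {β1 β2 β3 : Bool}
    (hm : (single ((s, a), β1) 1 + single ((s, b), β2) 1 + single ((s3, c), β3) 1 :
      (Vtx n × Bool) →₀ ℕ) ∈ f.support) :
    Good f (single ((s, a), β1) 1 + single ((s, b), β2) 1 + single ((s3, c), β3) 1) := by
  by_cases hs : s3 = s
  · subst hs
    exact (same_side hn hk hf hm).elim
  · have hs3 : s3 = !s := by cases s <;> cases s3 <;> simp_all
    subst hs3
    by_cases hca : c = a
    · subst hca
      by_cases hcb : c = b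
      · subst hcb
        exact (mixed_eq hn hk hf hm).elim
      · exact mixed_a hn hk hf hcb hm
    · by_cases hcb : c = b
      · subst hcb
        rw [add_comm (single ((s, a), β1) 1)] at hm ⊢
        exact mixed_a hn hk hf hca hm
      · exact mixed_gen hn hk hf hca hcb hm

theorem step (hn : 3 ≤ n) (hk : Killed (crown n) T f) (hf : f.IsHomogeneous 3)
    (m : (Vtx n × Bool) →₀ ℕ) (hm : m ∈ f.support) : Good f m := by
  have hdeg : ∑ u, m u = 3 := by
    have h1 := hf (MvPolynomial.mem_support_iff.mp hm)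
    rw [← Finsupp.degree_eq_sum, Finsupp.degree_eq_weight_one]
    exact h1
  obtain ⟨⟨⟨s1, a⟩, β1⟩, ⟨⟨s2, b⟩, β2⟩, ⟨⟨s3, c⟩, β3⟩, rfl⟩ := exists_three hdeg
  by_cases h12 : s1 = s2
  · subst h12
    exact step_two hn hk hf hm
  · by_cases h13 : s1 = s3
    · subst h13
      rw [add_right_comm] at hm ⊢
      exact step_two hn hk hf hm
    · have h23 : s2 = s3 := by cases s1 <;> cases s2 <;> cases s3 <;> simp_all
      subst h23
      rw [add_assoc, add_comm (single ((s1, a), β1) 1)] at hm ⊢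
      exact step_two hn hk hf hm

/-- The theorem. -/
theorem no_degree_three (hn : 3 ≤ n) (T : Set (Vtx n)) (f : MvPolynomial (Vtx n × Bool) k)
    (hf : f.IsHomogeneous 3) :
    ¬ ∀ g, g * f ∈ edgeIdeal k (crown n) ↔ g ∈ primeIdeal k (crown n) T := by
  intro h
  have hk := killed_of_colon h
  have h1 : f ∈ edgeIdeal k (crown n) :=
    mem_of_pairs (G := crown n) (T := T) (fun f hk hf m hm => step hn hk hf m hm)
      _ f le_rfl hk hf
  exact one_notMem_primeIdeal ((h 1).mp (by rwa [one_mul]))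

end Pool.Agent.X238.Vno
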