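import Pool.Agent.X238.Vno.Basic

namespace Pool.Agent.X238.Vno

open MvPolynomial Finsupp

variable {k : Type*} [Field k] {V : Type}

theorem exists_surplus {V : Type} [Fintype V] [DecidableEq V] {κ : V → V} {c c' : V → ℕ}
    (h : ∀ l, (∑ v, if κ v = l then c v else 0) = ∑ v, if κ v = l then c' v else 0)
    {p : V} (hp : c' p < c p) : ∃ q, κ q = κ p ∧ c q < c' q := by
  by_contra hcon
  push Not at hcon
  have h1 : (∑ v, if κ v = κ p then c' v else 0) < ∑ v, if κ v = κ p then c v else 0 := by
    refine Finset.sum_lt_sum (fun v _ => ?_) ⟨p, Finset.mem_univ p, by simpa using hp⟩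
    split_ifs with hv
    · exact hcon v hv
    · exact le_rfl
  exact absurd (h (κ p)) (ne_of_gt h1)

theorem sum_eq_of_classes {V : Type} [Fintype V] [DecidableEq V] {κ : V → V} {c c' : V → ℕ}
    (h : ∀ l, (∑ v, if κ v = l then c v else 0) = ∑ v, if κ v = l then c' v else 0) :
    ∑ v, c v = ∑ v, c' v := by
  have h1 : ∀ d : V → ℕ, ∑ v, d v = ∑ l, ∑ v, if κ v = l then d v else 0 := by
    intro d
    rw [Finset.sum_comm]
    refine Finset.sum_congr rfl fun v _ => ?_
    simp
  rw [h1 c, h1 c']
  exact Finset.sum_congr rfl fun l _ => h l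

/-- a multidegree-one exponent -/
theorem eq_single_of_degree_one {σ : Type} [Fintype σ] {w : σ →₀ ℕ} (h : ∑ i, w i = 1) :
    ∃ i, w = single i 1 := by
  classical
  have h1 : ∃ i, w i ≠ 0 := by
    by_contra hcon
    push Not at hcon
    simp [hcon] at h
  obtain ⟨i, hi⟩ := h1
  refine ⟨i, ?_⟩
  have h2 : w i + ∑ j ∈ Finset.univ.erase i, w j = 1 := by
    rw [Finset.add_sum_erase _ _ (Finset.mem_univ i)]
    exact h
  have h3 : ∑ j ∈ Finset.univ.erase i, w j = 0 := by omega
  have h4 : w i = 1 := by omega
  ext j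
  by_cases hj : j = i
  · rw [hj, h4]; simp
  · rw [Finset.sum_eq_zero_iff] at h3
    rw [h3 j (by simp [hj]), single_apply, if_neg (fun e => hj e.symm)]

theorem swap_lemma [Fintype V] [DecidableEq V] {κ : V → V} {m m' : (V × Bool) →₀ ℕ}
    (hne : m' ≠ m) (himg : img κ m' = img κ m) (hdeg : ∑ u, m u = 3) :
    ∃ p q r b, p ≠ q ∧ κ p = κ q ∧
      m = single (p, false) 1 + single (q, true) 1 + single (r, b) 1 ∧
      m' = single (p, true) 1 + single (q, false) 1 + single (r, b) 1 := by
  have hv : ∀ v, m' (v, false) + m' (v, true) = m (v, false) + m (v, true) := fun v => by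
    rw [← img_inl κ m', ← img_inl κ m, himg]
  have hl : ∀ l, (∑ v, if κ v = l then m' (v, false) else 0) =
      ∑ v, if κ v = l then m (v, false) else 0 := fun l => by
    rw [← img_inr κ m', ← img_inr κ m, himg]
  have hdeg' : ∑ u, m' u = 3 := by
    rw [← hdeg, Fintype.sum_prod_type, Fintype.sum_prod_type]
    refine Finset.sum_congr rfl fun v _ => ?_
    simp only [Fintype.sum_bool]
    have := hv v
    omega
  -- find p
  have hp : ∃ p, m' (p, false) < m (p, false) := by
    have h1 : ∃ v, m' (v, false) ≠ m (v, false) := by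
      by_contra hcon
      push Not at hcon
      apply hne
      ext ⟨v, b⟩
      cases b
      · exact hcon v
      · have h1 := hcon v
        have h2 := hv v
        omega
    obtain ⟨v, hv1⟩ := h1
    rcases lt_or_gt_of_ne hv1 with h | h
    · exact ⟨v, h⟩
    · obtain ⟨q, -, hq⟩ := exists_surplus (c := fun v => m' (v, false))
        (c' := fun v => m (v, false)) hl h
      exact ⟨q, hq⟩
  obtain ⟨p, hp⟩ := hp
  obtain ⟨q, hq, hq2⟩ := exists_surplus (c := fun v => m (v, false))
    (c' := fun v => m' (v, false)) (fun l => (hl l).symm) hp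
  have hpq : p ≠ q := by
    rintro rfl
    omega
  -- the remaining exponents
  have key : ∀ (a : (V × Bool) →₀ ℕ) (x y : V × Bool), x ≠ y → a x ≠ 0 → a y ≠ 0 →
      ∑ u, a u = 3 → ∃ z, a = single x 1 + single y 1 + single z 1 := by
    intro a x y hxy hx hy ha
    have hle : single x 1 + single y 1 ≤ a := by
      intro u
      rw [Finsupp.add_apply, single_apply, single_apply]
      by_cases h1 : x = u
      · rw [if_pos h1, if_neg (fun e => hxy (h1.trans e.symm))]
        rw [h1] at hx; omega
      · rw [if_neg h1]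
        by_cases h2 : y = u
        · rw [if_pos h2]
          rw [h2] at hy; omega
        · rw [if_neg h2]; omega
    obtain ⟨w, hw⟩ := exists_add_of_le hle
    have h1 : ∑ u, w u = 1 := by
      have h2 : ∑ u, a u = ∑ u, (single x 1 + single y 1 : (V × Bool) →₀ ℕ) u + ∑ u, w u := by
        rw [← Finset.sum_add_distrib]
        refine Finset.sum_congr rfl fun u _ => ?_
        rw [hw]; rfl
      have h3 : ∑ u, (single x 1 + single y 1 : (V × Bool) →₀ ℕ) u = 2 := by
        simp only [Finsupp.add_apply, Finset.sum_add_distrib, single_apply]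
        simp
      omega
    obtain ⟨z, hz⟩ := eq_single_of_degree_one h1
    exact ⟨z, by rw [hw, hz]⟩
  have hqv := hv q
  have hpv := hv p
  obtain ⟨⟨r, b⟩, hr⟩ := key m (p, false) (q, true) (by simp) (by omega) (by omega) hdeg
  obtain ⟨⟨r', b'⟩, hr'⟩ := key m' (p, true) (q, false) (by simp) (by omega) (by omega) hdeg'
  have hrr : r' = r := by
    have h1 := hv r
    rw [hr, hr'] at h1
    simp only [Finsupp.add_apply, single_apply, Prod.mk.injEq] at h1
    by_contra hcon
    cases b <;> cases b' <;> simp [hcon] at h1 <;> omega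
  subst hrr
  have hbb : b' = b := by
    have h1 := sum_eq_of_classes hl
    rw [hr, hr'] at h1
    simp only [Finsupp.add_apply, single_apply, Prod.mk.injEq, Finset.sum_add_distrib] at h1
    cases b <;> cases b' <;> simp at h1 ⊢
  subst hbb
  exact ⟨p, q, r', b', hpq, hq.symm, hr, hr'⟩

/-- the main extraction: if the monomial map kills `f` then each monomial of `f` (without variables
in `S`) has a partner differing by a swap inside a class. -/
theorem extract [Fintype V] {S : Set V} {κ : V → V} {f : MvPolynomial (V × Bool) k}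
    (h0 : phi k S κ f = 0) (hf : f.IsHomogeneous 3) {m : (V × Bool) →₀ ℕ} (hm : m ∈ f.support)
    (hS : ∀ u : V × Bool, u.1 ∈ S → m u = 0) :
    ∃ p q r b, p ≠ q ∧ κ p = κ q ∧
      m = single (p, false) 1 + single (q, true) 1 + single (r, b) 1 ∧
      (single (p, true) 1 + single (q, false) 1 + single (r, b) 1 : (V × Bool) →₀ ℕ)
        ∈ f.support := by
  classical
  obtain ⟨m', hm', hne, himg⟩ := partner h0 hm hS
  have hdeg : ∑ u, m u = 3 := by
    have h1 := hf (MvPolynomial.mem_support_iff.mp hm)
    rw [← Finsupp.degree_eq_sum, Finsupp.degree_eq_weight_one]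
    exact h1
  obtain ⟨p, q, r, b, h1, h2, h3, h4⟩ := swap_lemma hne himg hdeg
  exact ⟨p, q, r, b, h1, h2, h3, h4 ▸ hm'⟩

end Pool.Agent.X238.Vno
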